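import Pool.Agent.MWK.Stmts

/-! Row FTA of squad MWK (MP_23468a_al). -/

set_option autoImplicit false

namespace Pool.Agent.MWK.H50

open Pool.Agent.MWK Pool.Agent.Helper14_MV Pool.Agent.Helper2_MV

/-- ROW FTA -/
theorem fta (hfre : FreStmt) (hclo : CloStmt) (hseg : SegStmt) (hokm : OkmStmt) : FtaStmt := by
  intro θ hK m hWA P a b Q ha hb
  have hS : ∀ z ∈ [a, b], 2 ≤ (P ++ [a, b]).count z ∨
      (z ∈ P ++ [a, b] ∧ ¬ Dp (m + 1) (P ++ a :: b :: Q) z) := by
    intro z hz
    by_cases hzP : z ∈ P
    · left
      have h1 : 0 < P.count z := List.count_pos_iff.2 hzP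
      have h2 : 0 < ([a, b] : List ℕ).count z := List.count_pos_iff.2 hz
      rw [List.count_append]
      omega
    · right
      refine ⟨List.mem_append_right _ hz, ?_⟩
      have hz' : z = a ∨ z = b := by simpa using hz
      rcases hz' with h | h
      · rw [h] at hzP ⊢
        exact ha.resolve_left hzP
      · rw [h] at hzP ⊢
        exact hb.resolve_left hzP
  obtain ⟨qs0, R, hlen, hQ, hOk, -⟩ := hseg (m + 1) (P ++ a :: b :: Q) (P ++ [a, b]) Q [a, b]
    (by simp) hS
  cases qs0 with
  | nil => simp at hlen
  | cons q qs =>
    have hlen' : qs.length = m := by simpa using hlen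
    obtain ⟨hc, hOk'⟩ := hOk
    have hQ' : Q = q ++ qs.flatten ++ R := by
      rw [hQ]
      simp
    -- the word bit for two letters
    have key : ∀ X : List ℕ, (∀ z, z ∈ X → z ∈ [a, b]) → (∀ l, X.count l = [a, b].count l) →
        RR θ (P ++ X ++ q ++ qs.flatten ++ R) (P ++ X ++ X ++ q ++ qs.flatten ++ R) := by
      intro X hX hXc
      have h1 : RR θ (P ++ X ++ q ++ X ++ (qs.flatten ++ R)) (P ++ X ++ q ++ (qs.flatten ++ R)) := by
        apply hfre θ hK (P ++ X ++ q) X (qs.flatten ++ R)
        intro l hl
        have h2 := hc l (hX l hl)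
        rw [List.count_append, List.count_append] at h2 ⊢
        rw [hXc]
        exact h2
      have h3 := hWA P X q qs R hlen' (hokm qs (P ++ [a, b] ++ q) (P ++ X ++ X ++ q) q q hOk'
        (by
          intro l
          simp only [List.count_append, hXc]
          omega)
        (fun z hz => hz))
      have e1 : P ++ X ++ q ++ X ++ (qs.flatten ++ R) = P ++ X ++ q ++ X ++ qs.flatten ++ R := by
        simp
      have e2 : P ++ X ++ q ++ (qs.flatten ++ R) = P ++ X ++ q ++ qs.flatten ++ R := by
        simp
      rw [e1, e2] at h1
      exact θ.trans h1.symm h3.symm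
    have hab := key [a, b] (fun z hz => hz) (fun l => rfl)
    have hba := key [b, a] (fun z hz => by simpa [or_comm] using hz) (by
      intro l
      simp only [List.count_cons, List.count_nil]
      omega)
    have hcl : RR θ (P ++ [a, b, a, b] ++ (q ++ qs.flatten ++ R))
        (P ++ [b, a, b, a] ++ (q ++ qs.flatten ++ R)) := by
      apply hclo θ hK P [a, b, a, b] [b, a, b, a]
      · intro l
        simp only [List.mem_cons, List.not_mem_nil, or_false]
        tauto
      · intro l hl
        have h2 : 2 ≤ ([a, b, a, b] : List ℕ).count l := by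
          simp only [List.mem_cons, List.not_mem_nil, or_false] at hl
          simp only [List.count_cons, List.count_nil]
          rcases hl with h | h | h | h <;> subst h <;> simp <;> omega
        rw [List.count_append]
        omega
      · intro l hl
        have h2 : 2 ≤ ([b, a, b, a] : List ℕ).count l := by
          simp only [List.mem_cons, List.not_mem_nil, or_false] at hl
          simp only [List.count_cons, List.count_nil]
          rcases hl with h | h | h | h <;> subst h <;> simp <;> omega
        rw [List.count_append]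
        omega
    have e3 : P ++ [a, b] ++ [a, b] ++ q ++ qs.flatten ++ R =
        P ++ [a, b, a, b] ++ (q ++ qs.flatten ++ R) := by simp
    have e4 : P ++ [b, a] ++ [b, a] ++ q ++ qs.flatten ++ R =
        P ++ [b, a, b, a] ++ (q ++ qs.flatten ++ R) := by simp
    rw [e3] at hab
    rw [e4] at hba
    have h5 := θ.trans hab (θ.trans hcl hba.symm)
    have e5 : P ++ a :: b :: Q = P ++ [a, b] ++ q ++ qs.flatten ++ R := by
      rw [hQ']
      simp
    have e6 : P ++ b :: a :: Q = P ++ [b, a] ++ q ++ qs.flatten ++ R := by
      rw [hQ']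
      simp
    rw [e5, e6]
    exact h5

end Pool.Agent.MWK.H50
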