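import Pool.Agent.MWK.StmtsN

/-! Row NPB of squad MWK (MP_23468a_al). -/

set_option autoImplicit false

namespace Pool.Agent.MWK.H50

open Pool.Agent.MWK Pool.Agent.Helper14_MV Pool.Agent.Helper2_MV

/-- the substitution `2 ↦ 0`, `1 ↦ 1 1` -/
def g21 (c : ℕ) : List ℕ := if c = 2 then [0] else if c = 1 then [1, 1] else []

theorem flatMap_two (n : ℕ) : (List.replicate n 2).flatMap g21 = List.replicate n 0 := by
  induction n with
  | zero => rfl
  | succ n ih =>
    rw [List.replicate_succ, List.flatMap_cons, ih, List.replicate_succ]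
    rfl

theorem shape (v : List ℕ) (h1 : v.count 1 = 1) (hl : ∀ c ∈ v, c = 1 ∨ c = 2)
    (hP : PA (v.flatMap g21)) : ∃ j, 2 ≤ j ∧ v = List.replicate j 2 ++ [1] := by
  have hm : 1 ∈ v := List.count_pos_iff.1 (by omega)
  obtain ⟨s, t, rfl⟩ := List.append_of_mem hm
  rw [List.count_append, List.count_cons_self] at h1
  have hs : s = List.replicate s.length 2 := by
    rw [List.eq_replicate_iff]
    refine ⟨rfl, fun c hc => ?_⟩
    rcases hl c (by simp [hc]) with h | h
    · exfalso
      rw [h] at hc
      have := List.count_pos_iff.2 hc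
      omega
    · exact h
  have ht : t = List.replicate t.length 2 := by
    rw [List.eq_replicate_iff]
    refine ⟨rfl, fun c hc => ?_⟩
    rcases hl c (by simp [hc]) with h | h
    · exfalso
      rw [h] at hc
      have := List.count_pos_iff.2 hc
      omega
    · exact h
  generalize s.length = a at hs
  generalize t.length = b at ht
  subst hs ht
  obtain ⟨i, j, hi, hj, he⟩ := hP
  rw [List.flatMap_append, List.flatMap_cons, flatMap_two, flatMap_two] at he
  have he' : List.replicate a 0 ++ ([1, 1] ++ List.replicate b 0) =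
      List.replicate i 0 ++ List.replicate j 1 := he
  have hc0 := congrArg (List.count 0) he'
  have hc1 := congrArg (List.count 1) he'
  simp [List.count_append, List.count_replicate] at hc0 hc1
  subst hc1
  rw [← hc0, List.replicate_add, List.append_assoc] at he'
  have he2 := List.append_cancel_left he'
  cases b with
  | zero => exact ⟨a, by omega, by simp⟩
  | succ b =>
    rw [List.replicate_succ] at he2
    simp at he2

/-- ROW NPB -/
theorem npb (hctt : Pool.Agent.MWF.CttStmt) (hnty : NtyStmt) : NpbStmt := by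
  intro β hG hPA w w' hww hPB
  obtain ⟨hc, ⟨k, hk, hf2⟩, ⟨j, hj, hf0⟩⟩ := hPB
  have hcon := hctt β hG.ap w w' hww
  have hc' : ∀ c ∈ w', c = 0 ∨ c = 1 ∨ c = 2 := fun c h => hc c ((hcon c).2 h)
  have h2 := hww.filter (fun c => decide (c ≠ 2))
  rw [hf2] at h2
  obtain ⟨k', hk', hk2⟩ := hnty β hG 0 1 (by decide) k _ hk h2
  have h0 := hww.filter (fun c => decide (c ≠ 0))
  rw [hf0] at h0
  have h3 := h0.sub g21
  have hl : (List.replicate j 2 ++ [1]).flatMap g21 = List.replicate j 0 ++ List.replicate 2 1 := by
    rw [List.flatMap_append, flatMap_two]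
    rfl
  have h4 := hPA _ _ h3 ⟨j, 2, hj, le_refl _, hl⟩
  have hcount : (w'.filter (fun c => decide (c ≠ 0))).count 1 = 1 := by
    have e1 : (w'.filter (fun c => decide (c ≠ 0))).count 1 = w'.count 1 :=
      List.count_filter (by decide)
    have e2 : (w'.filter (fun c => decide (c ≠ 2))).count 1 = w'.count 1 :=
      List.count_filter (by decide)
    rw [e1, ← e2, hk2]
    simp [List.count_replicate]
  have hlet : ∀ c ∈ w'.filter (fun c => decide (c ≠ 0)), c = 1 ∨ c = 2 := by
    intro c hcm
    rw [List.mem_filter] at hcm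
    obtain ⟨hm1, hm2⟩ := hcm
    have hm3 : c ≠ 0 := by simpa using hm2
    rcases hc' c hm1 with h | h | h
    · exact absurd h hm3
    · exact Or.inl h
    · exact Or.inr h
  exact ⟨hc', ⟨k', hk', hk2⟩, shape _ hcount hlet h4⟩

end Pool.Agent.MWK.H50
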