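import Pool.Agent.MWK.StmtsN

/-! Row GAM of squad MWK (MP_23468a_al). -/

set_option autoImplicit false

namespace Pool.Agent.MWK.H50

open Pool.Agent.MWK Pool.Agent.Helper14_MV Pool.Agent.Helper2_MV

/-- ROW GAM -/
theorem gam (hnr0 : Nr0Stmt) (hnd1 : Nd1Stmt) : GamStmt := by
  intro β hM hAp hgm hnb
  have hG : Gw β := ⟨hAp, hgm, hnb⟩
  have h1 := hnr0 β hM hG
  exact ⟨h1, hnd1 β hM hG h1⟩

end Pool.Agent.MWK.H50
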