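import Pool.Agent.MWK.StmtsN

/-! Row NR0 of squad MWK (MP_23468a_al). -/

set_option autoImplicit false

namespace Pool.Agent.MWK.H50

open Pool.Agent.MWK Pool.Agent.Helper14_MV Pool.Agent.Helper2_MV
open Pool.Agent.MWF (Ap gaml le_gaml gaml_keep RR_gaml pent)

/-- ROW NR0 -/
theorem nr0 (hnaa : NaaStmt) (hnka : NkaStmt) (hnpb : NpbStmt) (hntb : NtbStmt) : Nr0Stmt := by
  intro β hM hG
  by_contra hcon
  have hA := hnaa β hM hG.ap hcon
  have hB := hnpb β hG hA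
  have hσ : β ≤ gaml PA := le_gaml hA
  have hτ : β ≤ gaml PB := le_gaml hB
  have hP : β ≤ gaml (fun w => PB w ∧ RR (gaml PA) w [0, 2, 2, 1, 0]) := by
    apply le_gaml
    rintro a b hab ⟨h1, h2⟩
    exact ⟨hB _ _ hab h1, (gaml PA).trans (RR.symm (hσ _ _ hab)) h2⟩
  have hka : RR (gaml PA) [0, 1, 0] [0, 0, 1, 0] := hnka
  have c1 : RR (gaml PA) [0, 2, 2, 1, 0] [0, 0, 2, 2, 1, 0] :=
    hka.sub (fun c => if c = 0 then [0] else [2, 2, 1])
  have c3 : RR (gaml PA) [2, 2, 0, 0, 1, 0] [2, 2, 0, 1, 0] :=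
    (RR.refl (β := gaml PA) [2, 2]).append hka.symm
  have c2 : ∀ Q : List ℕ → Prop, (∀ w, Q w → PB w) →
      RR (gaml Q) [0, 0, 2, 2, 1, 0] [2, 2, 0, 0, 1, 0] := by
    intro Q hQ
    apply RR_gaml
    intro f p q
    constructor
    · intro h
      rw [← hntb.2 f p q (Or.inl (hQ _ h))]
      exact h
    · intro h
      rw [hntb.2 f p q (Or.inr (hQ _ h))]
      exact h
  have hs : RR (FIC.sup (FIC.inf (gaml (fun w => PB w ∧ RR (gaml PA) w [0, 2, 2, 1, 0]))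
      (gaml PB)) (gaml PA)) [0, 2, 2, 1, 0] [2, 2, 0, 1, 0] := by
    have hr := FIC.le_sup_right (FIC.inf (gaml (fun w => PB w ∧ RR (gaml PA) w [0, 2, 2, 1, 0]))
      (gaml PB)) (gaml PA)
    have hl := FIC.le_sup_left (FIC.inf (gaml (fun w => PB w ∧ RR (gaml PA) w [0, 2, 2, 1, 0]))
      (gaml PB)) (gaml PA)
    refine (FIC.sup _ _).trans (hr _ _ c1) ((FIC.sup _ _).trans (hl _ _ ?_) (hr _ _ c3))
    exact ⟨c2 _ (fun w h => h.1), c2 _ (fun w h => h)⟩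
  have hu : PB [0, 2, 2, 1, 0] := by
    refine ⟨by simp, ⟨1, le_refl _, by decide⟩, ⟨2, le_refl _, by decide⟩⟩
  have hv := pent hM (FIC.le_inf hP hτ) hσ hτ (FIC.inf_le_right _ _)
    (P := fun w => PB w ∧ RR (gaml PA) w [0, 2, 2, 1, 0])
    (fun a b hab hPa => (gaml_keep hab.1).1 hPa)
    (fun a b h1 h2 hPa => ⟨(gaml_keep h2).1 hPa.1, (gaml PA).trans (RR.symm h1) hPa.2⟩)
    hs hntb.1 ⟨hu, RR.refl _⟩
  have h5 : RR (gaml PA) [2, 2, 0, 1, 0] [0, 2, 2, 1, 0] := hv.2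
  have h6 := h5.sub (fun c => if c = 0 then [1, 1] else if c = 2 then [0] else [])
  have h7 : RR (gaml PA) [0, 0, 1, 1, 1, 1] [1, 1, 0, 0, 1, 1] := h6
  obtain ⟨i, j, hi, hj, he⟩ := (gaml_keep h7).1 ⟨2, 4, by omega, by omega, by decide⟩
  obtain ⟨i', rfl⟩ : ∃ i', i = i' + 1 := ⟨i - 1, by omega⟩
  rw [List.replicate_succ] at he
  simp at he

end Pool.Agent.MWK.H50
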